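import Mathlib

set_option autoImplicit false

namespace Pool.Agent.V11283.Brannan

open Finset

/-- generalised binomial coefficient -/
noncomputable def bc (α : ℝ) (k : ℕ) : ℝ :=
  (∏ j ∈ Finset.range k, (α - (j : ℝ))) / (k.factorial : ℝ)

/-- partial sums -/
noncomputable def P (α : ℝ) (n : ℕ) (x : ℂ) : ℂ :=
  ∑ k ∈ Finset.range (n + 1), ((bc α k : ℝ) : ℂ) * x ^ k

/-- value at 1 -/
noncomputable def A (α : ℝ) (n : ℕ) : ℝ := ∑ k ∈ Finset.range (n + 1), bc α k

lemma bc_zero (α : ℝ) : bc α 0 = 1 := by simp [bc]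

lemma bc_succ (α : ℝ) (k : ℕ) : bc α (k + 1) = bc α k * (α - k) / (k + 1) := by
  unfold bc
  rw [Finset.prod_range_succ, Nat.factorial_succ]
  push_cast
  have h : (k.factorial : ℝ) ≠ 0 := by positivity
  have h2 : ((k : ℝ) + 1) ≠ 0 := by positivity
  field_simp

lemma bc_succ_mul (α : ℝ) (k : ℕ) : (k + 1 : ℝ) * bc α (k + 1) = bc α k * (α - k) := by
  rw [bc_succ]
  have h2 : ((k : ℝ) + 1) ≠ 0 := by positivity
  field_simp

lemma bc_absorb (α : ℝ) (k : ℕ) : (k + 1 : ℝ) * bc α (k + 1) = α * bc (α - 1) k := by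
  unfold bc
  rw [Finset.prod_range_succ', Nat.factorial_succ]
  push_cast
  have h : (k.factorial : ℝ) ≠ 0 := by positivity
  have h2 : ((k : ℝ) + 1) ≠ 0 := by positivity
  have : ∏ j ∈ Finset.range k, (α - ((j : ℝ) + 1)) = ∏ j ∈ Finset.range k, (α - 1 - (j : ℝ)) := by
    apply Finset.prod_congr rfl
    intro j _
    ring
  rw [this]
  field_simp
  ring

lemma bc_pascal (α : ℝ) (k : ℕ) : bc α (k + 1) = bc (α - 1) (k + 1) + bc (α - 1) k := by
  have h2 : ((k : ℝ) + 1) ≠ 0 := by positivity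
  have h3 := bc_absorb α k
  have h4 := bc_succ_mul (α - 1) k
  have : (k + 1 : ℝ) * bc α (k + 1) = (k + 1 : ℝ) * (bc (α - 1) (k + 1) + bc (α - 1) k) := by
    rw [h3, mul_add, h4]; ring
  exact mul_left_cancel₀ h2 this

lemma P_zero (α : ℝ) (x : ℂ) : P α 0 x = 1 := by simp [P, bc_zero]

lemma P_succ (α : ℝ) (n : ℕ) (x : ℂ) :
    P α (n + 1) x = P α n x + (bc α (n + 1) : ℂ) * x ^ (n + 1) := by
  unfold P
  rw [Finset.sum_range_succ]

lemma A_zero (α : ℝ) : A α 0 = 1 := by simp [A, bc_zero]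

lemma A_succ (α : ℝ) (n : ℕ) : A α (n + 1) = A α n + bc α (n + 1) := by
  unfold A
  rw [Finset.sum_range_succ]

lemma P_one (α : ℝ) (n : ℕ) : P α n 1 = (A α n : ℂ) := by
  simp [P, A]

/-- the sum of the first `m` terms -/
noncomputable def Q (α : ℝ) (m : ℕ) (x : ℂ) : ℂ :=
  ∑ k ∈ Finset.range m, ((bc α k : ℝ) : ℂ) * x ^ k

lemma Q_succ (α : ℝ) (m : ℕ) (x : ℂ) : Q α (m + 1) x = Q α m x + (bc α m : ℂ) * x ^ m := by
  unfold Q
  rw [Finset.sum_range_succ]

/-- `(1+x) Q^{α-1}_m(x) = P^α_m(x) - c x^m`. -/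
lemma key_id (α : ℝ) (m : ℕ) (x : ℂ) :
    (1 + x) * Q (α - 1) m x = P α m x - (bc (α - 1) m : ℂ) * x ^ m := by
  induction m with
  | zero => simp [Q, P_zero, bc_zero]
  | succ m ih =>
    rw [Q_succ, P_succ, mul_add, ih, bc_pascal]
    push_cast
    ring

lemma P_neg_one (α : ℝ) (m : ℕ) : P α m (-1) = (bc (α - 1) m : ℂ) * (-1) ^ m := by
  have := key_id α m (-1)
  rw [show (1 : ℂ) + (-1) = 0 by ring, zero_mul] at this
  linear_combination -this

/-- derivative of the partial sum -/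
lemma hasDerivAt_P (α : ℝ) (m : ℕ) (x : ℂ) :
    HasDerivAt (P α m) ((α : ℂ) * Q (α - 1) m x) x := by
  induction m with
  | zero =>
    have : P α 0 = fun _ => (1 : ℂ) := by
      funext y; exact P_zero α y
    rw [this]
    simpa [Q] using hasDerivAt_const x (1 : ℂ)
  | succ m ih =>
    have h1 : P α (m + 1) = fun y => P α m y + (bc α (m + 1) : ℂ) * y ^ (m + 1) := by
      funext y; exact P_succ α m y
    rw [h1]
    have h2 : HasDerivAt (fun y : ℂ => (bc α (m + 1) : ℂ) * y ^ (m + 1))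
        ((bc α (m + 1) : ℂ) * (((m + 1 : ℕ) : ℂ) * x ^ m)) x := by
      have := (hasDerivAt_pow (m + 1) x).const_mul (bc α (m + 1) : ℂ)
      simpa using this
    have h3 : HasDerivAt (fun y => P α m y + (bc α (m + 1) : ℂ) * y ^ (m + 1)) _ x := ih.add h2
    refine h3.congr_deriv ?_
    rw [Q_succ, mul_add]
    have h4 := bc_absorb α m
    have h5 : ((m : ℂ) + 1) * (bc α (m + 1) : ℂ) = (α : ℂ) * (bc (α - 1) m : ℂ) := by
      exact_mod_cast h4
    push_cast
    linear_combination (x ^ m) * h5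


/-! ### the case `0 < α < 1` -/

lemma norm_id {x : ℂ} (hx : ‖x‖ = 1) : x.re ^ 2 + x.im ^ 2 = 1 := by
  have h := Complex.sq_norm x
  rw [hx, Complex.normSq_apply] at h
  nlinarith

/-- `‖1 + t x‖ ≥ (‖1+x‖/2) (1+t)`. -/
lemma norm_one_add_mul_ge {x : ℂ} (hx : ‖x‖ = 1) {t : ℝ} (ht : 0 ≤ t) :
    ‖1 + x‖ / 2 * (1 + t) ≤ ‖1 + (t : ℂ) * x‖ := by
  have h1 := norm_id hx
  have hre : x.re ≤ 1 := by
    have := Complex.re_le_norm x
    rwa [hx] at this
  apply le_of_sq_le_sq _ (norm_nonneg _)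
  have e1 : ‖1 + x‖ ^ 2 = (1 + x.re) ^ 2 + x.im ^ 2 := by
    rw [Complex.sq_norm, Complex.normSq_apply]; simp; ring
  have e2 : ‖1 + (t : ℂ) * x‖ ^ 2 = (1 + t * x.re) ^ 2 + (t * x.im) ^ 2 := by
    rw [Complex.sq_norm, Complex.normSq_apply]; simp; ring
  rw [mul_pow, div_pow, e1, e2]
  nlinarith [mul_nonneg (sub_nonneg.mpr hre) (sq_nonneg (1 - t))]

lemma re_pos {x : ℂ} (hx : ‖x‖ = 1) (hx1 : x ≠ -1) {t : ℝ} (ht : 0 ≤ t) (ht1 : t ≤ 1) :
    0 < (1 + (t : ℂ) * x).re := by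
  have h1 := norm_id hx
  have hre : -1 ≤ x.re := by nlinarith [sq_nonneg x.im, sq_nonneg (x.re + 1)]
  have hre' : -1 < x.re := by
    rcases lt_or_eq_of_le hre with h | h
    · exact h
    · exfalso
      apply hx1
      have him : x.im = 0 := by
        rw [← h] at h1
        nlinarith [sq_nonneg x.im]
      apply Complex.ext
      · simp [← h]
      · simp [him]
  have : (1 + (t : ℂ) * x).re = 1 + t * x.re := by simp
  rw [this]
  rcases ht.eq_or_lt with h | h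
  · rw [← h]; norm_num
  · have := mul_pos h (show 0 < x.re + 1 by linarith)
    nlinarith

/-- derivative along the ray -/
lemma hasDerivAt_F (α : ℝ) (m : ℕ) {x : ℂ} (hx : ‖x‖ = 1) (hx1 : x ≠ -1) {t : ℝ}
    (ht : 0 ≤ t) (ht1 : t ≤ 1) :
    HasDerivAt (fun s : ℝ => P α m ((s : ℂ) * x) * (1 + (s : ℂ) * x) ^ (-(α : ℂ)))
      (-(α : ℂ) * (bc (α - 1) m : ℂ) * x * ((t : ℂ) * x) ^ m *
        (1 + (t : ℂ) * x) ^ (-(α : ℂ) - 1)) t := by
  have hpos := re_pos hx hx1 ht ht1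
  have hs : (1 + (t : ℂ) * x) ∈ Complex.slitPlane := Or.inl hpos
  have hne : (1 + (t : ℂ) * x) ≠ 0 := Complex.slitPlane_ne_zero hs
  have d1 : HasDerivAt (fun s : ℝ => (s : ℂ) * x) x t := by
    simpa using (Complex.ofRealCLM.hasDerivAt (x := t)).mul_const x
  have d2 : HasDerivAt (fun s : ℝ => 1 + (s : ℂ) * x) x t := by
    simpa using d1.const_add (1 : ℂ)
  have d3 : HasDerivAt (fun s : ℝ => P α m ((s : ℂ) * x))
      ((α : ℂ) * Q (α - 1) m ((t : ℂ) * x) * x) t := by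
    have := (hasDerivAt_P α m ((t : ℂ) * x)).comp t d1
    exact this
  have d4 : HasDerivAt (fun s : ℝ => (1 + (s : ℂ) * x) ^ (-(α : ℂ)))
      (-(α : ℂ) * (1 + (t : ℂ) * x) ^ (-(α : ℂ) - 1) * x) t := by
    have h := (Complex.hasStrictDerivAt_cpow_const (x := (1 + (t : ℂ) * x)) (c := -(α : ℂ)) hs).hasDerivAt
    exact h.comp t d2
  refine (d3.mul d4).congr_deriv ?_
  have hk := key_id α m ((t : ℂ) * x)
  have hpow : (1 + (t : ℂ) * x) ^ (-(α : ℂ)) = (1 + (t : ℂ) * x) ^ (-(α : ℂ) - 1) * (1 + (t : ℂ) * x) := by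
    rw [Complex.cpow_sub _ _ hne, Complex.cpow_one]
    field_simp
  rw [hpow]
  linear_combination ((α : ℂ) * x * (1 + (t : ℂ) * x) ^ (-(α : ℂ) - 1)) * hk


/-- value of the product along the ray in the real case -/
lemma hasDerivAt_F1 (α : ℝ) (m : ℕ) {t : ℝ} (ht : 0 ≤ t) (ht1 : t ≤ 1) :
    HasDerivAt (fun s : ℝ => (P α m (s : ℂ)).re * (1 + s) ^ (-α))
      (-α * bc (α - 1) m * t ^ m * (1 + t) ^ (-α - 1)) t := by
  have hpos : 0 < 1 + t := by linarith
  have d3 : HasDerivAt (fun s : ℝ => (P α m (s : ℂ)).re)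
      (((α : ℂ) * Q (α - 1) m (t : ℂ)).re) t := by
    exact (hasDerivAt_P α m (t : ℂ)).real_of_complex
  have d2 : HasDerivAt (fun s : ℝ => 1 + s) 1 t := by
    simpa using (hasDerivAt_id t).const_add (1 : ℝ)
  have d4 : HasDerivAt (fun s : ℝ => (1 + s) ^ (-α)) (-α * (1 + t) ^ (-α - 1)) t := by
    have := d2.rpow_const (p := -α) (Or.inl hpos.ne')
    refine this.congr_deriv ?_
    ring
  refine (d3.mul d4).congr_deriv ?_
  have hk := congrArg Complex.re (key_id α m (t : ℂ))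
  have e0 : (1 + (t : ℂ)) = ((1 + t : ℝ) : ℂ) := by push_cast; ring
  have e1 : ((α : ℂ) * Q (α - 1) m (t : ℂ)).re = α * (Q (α - 1) m (t : ℂ)).re := by
    rw [Complex.re_ofReal_mul]
  have e2 : (((bc (α - 1) m : ℝ) : ℂ) * (t : ℂ) ^ m).re = bc (α - 1) m * t ^ m := by
    rw [← Complex.ofReal_pow, ← Complex.ofReal_mul, Complex.ofReal_re]
  rw [e0, Complex.re_ofReal_mul, Complex.sub_re, e2] at hk
  have hpow : (1 + t) ^ (-α) = (1 + t) ^ (-α - 1) * (1 + t) := by
    rw [Real.rpow_sub hpos, Real.rpow_one]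
    field_simp
  rw [e1, hpow]
  linear_combination (α * (1 + t) ^ (-α - 1)) * hk

/-- The envelope bound. -/
lemma envelope {α : ℝ} (hα : 0 < α) {m : ℕ} (hc : bc (α - 1) m ≤ 0) {x : ℂ} (hx : ‖x‖ = 1)
    (hx1 : x ≠ -1) :
    ‖P α m x‖ ≤ (2 * (‖1 + x‖ / 2)) ^ α + (A α m - 2 ^ α) / (‖1 + x‖ / 2) := by
  set r : ℝ := ‖1 + x‖ / 2 with hr
  have hne : 1 + x ≠ 0 := by
    intro h
    apply hx1
    linear_combination h
  have hrpos : 0 < r := by
    have : 0 < ‖1 + x‖ := norm_pos_iff.mpr hne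
    positivity
  -- fencing
  let f : ℝ → ℂ := fun s => P α m ((s : ℂ) * x) * (1 + (s : ℂ) * x) ^ (-(α : ℂ))
  let B : ℝ → ℝ := fun s => 1 + r ^ (-α - 1) * ((P α m (s : ℂ)).re * (1 + s) ^ (-α) - 1)
  have hf : ∀ t ∈ Set.Icc (0 : ℝ) 1, HasDerivAt f
      (-(α : ℂ) * (bc (α - 1) m : ℂ) * x * ((t : ℂ) * x) ^ m *
        (1 + (t : ℂ) * x) ^ (-(α : ℂ) - 1)) t := fun t ht => hasDerivAt_F α m hx hx1 ht.1 ht.2
  have hB : ∀ t ∈ Set.Icc (0 : ℝ) 1, HasDerivAt B
      (r ^ (-α - 1) * (-α * bc (α - 1) m * t ^ m * (1 + t) ^ (-α - 1))) t := by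
    intro t ht
    exact (((hasDerivAt_F1 α m ht.1 ht.2).sub_const 1).const_mul _).const_add 1
  have g1 : ContinuousOn f (Set.Icc (0 : ℝ) 1) := fun t ht => (hf t ht).continuousAt.continuousWithinAt
  have g2 : ∀ t ∈ Set.Ico (0 : ℝ) 1, HasDerivWithinAt f
      (-(α : ℂ) * (bc (α - 1) m : ℂ) * x * ((t : ℂ) * x) ^ m *
        (1 + (t : ℂ) * x) ^ (-(α : ℂ) - 1)) (Set.Ici t) t :=
    fun t ht => (hf t ⟨ht.1, ht.2.le⟩).hasDerivWithinAt
  have g3 : ‖f 0‖ ≤ B 0 := by
    simp [f, B, P, bc_zero, Finset.sum_range_succ']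
  have g4 : ContinuousOn B (Set.Icc (0 : ℝ) 1) := fun t ht => (hB t ht).continuousAt.continuousWithinAt
  have g5 : ∀ t ∈ Set.Ico (0 : ℝ) 1, HasDerivWithinAt B
      (r ^ (-α - 1) * (-α * bc (α - 1) m * t ^ m * (1 + t) ^ (-α - 1))) (Set.Ici t) t :=
    fun t ht => (hB t ⟨ht.1, ht.2.le⟩).hasDerivWithinAt
  have g6 : ∀ t ∈ Set.Ico (0 : ℝ) 1, ‖(-(α : ℂ) * (bc (α - 1) m : ℂ) * x * ((t : ℂ) * x) ^ m *
        (1 + (t : ℂ) * x) ^ (-(α : ℂ) - 1))‖ ≤
      (r ^ (-α - 1) * (-α * bc (α - 1) m * t ^ m * (1 + t) ^ (-α - 1))) := by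
    intro t ht
    have ht0 : 0 ≤ t := ht.1
    have hge : r * (1 + t) ≤ ‖1 + (t : ℂ) * x‖ := norm_one_add_mul_ge hx ht0
    have hnpos : 0 < ‖1 + (t : ℂ) * x‖ := by
      have : 0 < r * (1 + t) := by positivity
      linarith
    have hexp : (-(α : ℂ) - 1) = ((-α - 1 : ℝ) : ℂ) := by push_cast; ring
    rw [hexp, norm_mul, Complex.norm_cpow_real, norm_mul, norm_mul, norm_mul, norm_pow, norm_mul, hx,
      norm_neg, Complex.norm_real, Complex.norm_real, Complex.norm_real, Real.norm_of_nonneg hα.le,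
      Real.norm_of_nonpos hc, Real.norm_of_nonneg ht0]
    have h1 : ‖1 + (t : ℂ) * x‖ ^ (-α - 1) ≤ (r * (1 + t)) ^ (-α - 1) := by
      apply Real.rpow_le_rpow_of_nonpos (by positivity) hge (by linarith)
    rw [Real.mul_rpow hrpos.le (by positivity)] at h1
    have h2 : 0 ≤ α * -bc (α - 1) m * t ^ m := by
      have : 0 ≤ -bc (α - 1) m := by linarith
      positivity
    have h3 := mul_le_mul_of_nonneg_left h1 h2
    calc _ = α * -bc (α - 1) m * t ^ m * ‖1 + (t : ℂ) * x‖ ^ (-α - 1) := by ring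
      _ ≤ _ := h3
      _ = _ := by ring
  have key : ∀ ⦃t⦄, t ∈ Set.Icc (0 : ℝ) 1 → ‖f t‖ ≤ B t :=
    image_norm_le_of_norm_deriv_right_le_deriv_boundary' g1 g2 g3 g4 g5 g6
  have h1 := key (Set.right_mem_Icc.mpr zero_le_one)
  simp only [f, B] at h1
  rw [Complex.ofReal_one, one_mul, norm_mul, show (-(α : ℂ)) = ((-α : ℝ) : ℂ) by push_cast; ring,
    Complex.norm_cpow_real, P_one, Complex.ofReal_re] at h1
  have e1 : ‖1 + x‖ = 2 * r := by rw [hr]; ring
  rw [e1] at h1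
  have hp : (0 : ℝ) < (2 * r) ^ α := by positivity
  have h2 : (2 * r) ^ (-α) = ((2 * r) ^ α)⁻¹ := Real.rpow_neg (by positivity) α
  have h4 : (1 + 1 : ℝ) ^ (-α) = (2 ^ α)⁻¹ := by
    rw [show (1 + 1 : ℝ) = 2 by norm_num]
    exact Real.rpow_neg (by norm_num) α
  have h5 : (2 * r) ^ α * r ^ (-α - 1) = 2 ^ α / r := by
    rw [Real.mul_rpow (by norm_num) hrpos.le, Real.rpow_sub hrpos, Real.rpow_one, Real.rpow_neg hrpos.le]
    have : r ^ α ≠ 0 := by positivity
    field_simp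
  rw [h2, h4] at h1
  have h6 := mul_le_mul_of_nonneg_left h1 hp.le
  have h7 : (2 * r) ^ α * (‖P α m x‖ * ((2 * r) ^ α)⁻¹) = ‖P α m x‖ := by
    field_simp
  rw [h7] at h6
  refine h6.trans (le_of_eq ?_)
  have h8 : (2 : ℝ) ^ α ≠ 0 := by positivity
  calc (2 * r) ^ α * (1 + r ^ (-α - 1) * (A α m * (2 ^ α)⁻¹ - 1))
      = (2 * r) ^ α + ((2 * r) ^ α * r ^ (-α - 1)) * (A α m * (2 ^ α)⁻¹ - 1) := by ring
    _ = _ := by rw [h5]; field_simp


lemma sign_bc {α : ℝ} (hα : 0 < α) (hα1 : α < 1) (k : ℕ) : 0 < (-1) ^ k * bc (α - 1) k := by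
  induction k with
  | zero => simp [bc_zero]
  | succ k ih =>
    rw [bc_succ, pow_succ]
    have h1 : (0 : ℝ) < k + 1 := by positivity
    have h2 : 0 < -(α - 1 - k) := by
      have : (0 : ℝ) ≤ k := by positivity
      linarith
    have h3 : (-1 : ℝ) ^ k * -1 * (bc (α - 1) k * (α - 1 - k) / (k + 1))
        = ((-1) ^ k * bc (α - 1) k) * (-(α - 1 - k)) / (k + 1) := by ring
    rw [h3]
    positivity

lemma abs_bc_succ {α : ℝ} (hα : 0 < α) (hα1 : α < 1) (k : ℕ) :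
    |bc (α - 1) (k + 1)| = |bc (α - 1) k| * (1 - α / (k + 1)) := by
  rw [bc_succ, abs_div, abs_mul]
  have h1 : (0 : ℝ) < k + 1 := by positivity
  have h2 : α - 1 - k < 0 := by
    have : (0 : ℝ) ≤ k := by positivity
    linarith
  rw [abs_of_pos h1, abs_of_neg h2]
  field_simp
  ring

lemma abs_bc_le_one {α : ℝ} (hα : 0 < α) (hα1 : α < 1) (k : ℕ) : |bc (α - 1) k| ≤ 1 := by
  induction k with
  | zero => simp [bc_zero]
  | succ k ih =>
    rw [abs_bc_succ hα hα1]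
    have h1 : (0 : ℝ) < k + 1 := by positivity
    have h2 : 0 ≤ α / (k + 1) := by positivity
    have h3 : α / (k + 1) ≤ 1 := by
      rw [div_le_one h1]
      have : (0 : ℝ) ≤ k := by positivity
      linarith
    nlinarith [abs_nonneg (bc (α - 1) k)]

lemma abs_bc_le {α : ℝ} (hα : 0 < α) (hα1 : α < 1) (k : ℕ) :
    |bc (α - 1) (k + 2)| ≤ (1 - α) * (1 - α / 2) := by
  induction k with
  | zero =>
    have h1 := abs_bc_succ hα hα1 0
    have h2 := abs_bc_succ hα hα1 1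
    rw [bc_zero] at h1
    norm_num at h1 h2
    rw [show (0 + 2) = 2 by norm_num, h2, h1]
  | succ k ih =>
    rw [show k + 1 + 2 = (k + 2) + 1 by ring, abs_bc_succ hα hα1]
    have h1 : (0 : ℝ) < ((k + 2 : ℕ) : ℝ) + 1 := by positivity
    have h2 : 0 ≤ α / (((k + 2 : ℕ) : ℝ) + 1) := by positivity
    have h4 : 0 ≤ |bc (α - 1) (k + 2)| := abs_nonneg _
    nlinarith

/-- bounds for the value at 1 -/
lemma A_bounds {α : ℝ} (hα : 0 < α) {m : ℕ} (hc : bc (α - 1) m ≤ 0) :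
    2 ^ α ≤ A α m ∧ A α m - 2 ^ α ≤ 2 ^ α * (α * (|bc (α - 1) m| / (m + 1))) := by
  let G : ℝ → ℝ := fun s => (P α m (s : ℂ)).re * (1 + s) ^ (-α)
  have hG : ∀ t ∈ Set.Icc (0 : ℝ) 1, HasDerivAt G
      (-α * bc (α - 1) m * t ^ m * (1 + t) ^ (-α - 1)) t :=
    fun t ht => hasDerivAt_F1 α m ht.1 ht.2
  have hG0 : G 0 = 1 := by
    simp [G, P, bc_zero, Finset.sum_range_succ']
  have h2 : (2 : ℝ) ^ α ≠ 0 := by positivity
  have hG1 : G 1 = A α m * (2 ^ α)⁻¹ := by
    simp only [G]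
    rw [Complex.ofReal_one, P_one, Complex.ofReal_re, show (1 + 1 : ℝ) = 2 by norm_num,
      Real.rpow_neg (by norm_num)]
  have hcn : 0 ≤ -bc (α - 1) m := by linarith
  have hderiv0 : ∀ t ∈ Set.Icc (0 : ℝ) 1, 0 ≤ -α * bc (α - 1) m * t ^ m * (1 + t) ^ (-α - 1) := by
    intro t ht
    have ht0 : 0 ≤ t := ht.1
    have : 0 ≤ α * (-bc (α - 1) m) * t ^ m * (1 + t) ^ (-α - 1) := by positivity
    linarith [this]
  have hcont : ContinuousOn G (Set.Icc (0 : ℝ) 1) := fun t ht => (hG t ht).continuousAt.continuousWithinAt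
  constructor
  · have hmono : MonotoneOn G (Set.Icc (0 : ℝ) 1) := by
      apply monotoneOn_of_deriv_nonneg (convex_Icc 0 1) hcont
      · intro t ht
        rw [interior_Icc] at ht
        exact (hG t ⟨ht.1.le, ht.2.le⟩).differentiableAt.differentiableWithinAt
      · intro t ht
        rw [interior_Icc] at ht
        rw [(hG t ⟨ht.1.le, ht.2.le⟩).deriv]
        exact hderiv0 t ⟨ht.1.le, ht.2.le⟩
    have := hmono (Set.left_mem_Icc.mpr zero_le_one) (Set.right_mem_Icc.mpr zero_le_one) zero_le_one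
    rw [hG0, hG1] at this
    have hp : (0 : ℝ) < 2 ^ α := by positivity
    have h3 := mul_le_mul_of_nonneg_left this hp.le
    have h4 : (2 : ℝ) ^ α * (A α m * (2 ^ α)⁻¹) = A α m := by field_simp
    rw [h4] at h3
    linarith
  · let H : ℝ → ℝ := fun s => G s - 1
    let B : ℝ → ℝ := fun s => α * (-bc (α - 1) m) * (s ^ (m + 1) / (m + 1))
    have hH : ∀ t ∈ Set.Icc (0 : ℝ) 1, HasDerivAt H
      (-α * bc (α - 1) m * t ^ m * (1 + t) ^ (-α - 1)) t := fun t ht => (hG t ht).sub_const 1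
    have hB : ∀ t : ℝ, HasDerivAt B (α * (-bc (α - 1) m) * t ^ m) t := by
      intro t
      have h1 := ((hasDerivAt_pow (m + 1) t).div_const ((m : ℝ) + 1)).const_mul (α * (-bc (α - 1) m))
      refine h1.congr_deriv ?_
      have : ((m : ℝ) + 1) ≠ 0 := by positivity
      push_cast
      field_simp
    have key := image_norm_le_of_norm_deriv_right_le_deriv_boundary (f := H) (a := 0) (b := 1)
      (f' := fun t => (-α * bc (α - 1) m * t ^ m * (1 + t) ^ (-α - 1)))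
      (fun t ht => (hH t ht).continuousAt.continuousWithinAt)
      (fun t ht => (hH t ⟨ht.1, ht.2.le⟩).hasDerivWithinAt) (B := B)
      (B' := fun t => α * (-bc (α - 1) m) * t ^ m)
      (by simp [H, hG0, B]) hB
      (by
        intro t ht
        have ht0 : 0 ≤ t := ht.1
        rw [Real.norm_of_nonneg (hderiv0 t ⟨ht.1, ht.2.le⟩)]
        have h1 : (1 + t) ^ (-α - 1) ≤ 1 := by
          apply Real.rpow_le_one_of_one_le_of_nonpos (by linarith) (by linarith)
        have h2 : 0 ≤ α * (-bc (α - 1) m) * t ^ m := by positivity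
        have h3 := mul_le_mul_of_nonneg_left h1 h2
        calc -α * bc (α - 1) m * t ^ m * (1 + t) ^ (-α - 1)
            = α * (-bc (α - 1) m) * t ^ m * (1 + t) ^ (-α - 1) := by ring
          _ ≤ α * (-bc (α - 1) m) * t ^ m * 1 := h3
          _ = _ := by ring)
    have h1 := key (Set.right_mem_Icc.mpr zero_le_one)
    simp only [H, B] at h1
    rw [hG1] at h1
    have h3 := (le_abs_self _).trans h1
    have hp : (0 : ℝ) < 2 ^ α := by positivity
    have h4 := mul_le_mul_of_nonneg_left h3 hp.le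
    have h5 : (2 : ℝ) ^ α * (A α m * (2 ^ α)⁻¹ - 1) = A α m - 2 ^ α := by field_simp
    rw [h5, one_pow] at h4
    refine h4.trans (le_of_eq ?_)
    rw [abs_of_nonpos hc]
    ring

/-- The case `0 < α < 1`, away from `-1`. -/
lemma case_one {α : ℝ} (hα : 0 < α) (hα1 : α < 1) {m : ℕ} (hc : bc (α - 1) m ≤ 0) {x : ℂ}
    (hx : ‖x‖ = 1) (hr : |bc (α - 1) m| / (m + 1) ≤ ‖1 + x‖ / 2) (hx1 : x ≠ -1) :
    ‖P α m x‖ ≤ A α m := by
  have h1 := envelope hα hc hx hx1
  obtain ⟨h2, h3⟩ := A_bounds hα hc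
  have hrpos : 0 < ‖1 + x‖ / 2 := by
    have hne : 1 + x ≠ 0 := by
      intro h
      apply hx1
      linear_combination h
    have : 0 < ‖1 + x‖ := norm_pos_iff.mpr hne
    positivity
  have hr1 : ‖1 + x‖ / 2 ≤ 1 := by
    have := norm_add_le (1 : ℂ) x
    rw [hx, norm_one] at this
    linarith
  set r : ℝ := ‖1 + x‖ / 2 with hrdef
  have hp : (0 : ℝ) < 2 ^ α := by positivity
  have h4 : r ^ α ≤ 1 + α * (r - 1) := by
    have := rpow_one_add_le_one_add_mul_self (s := r - 1) (by linarith) hα.le hα1.le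
    simpa using this
  rw [Real.mul_rpow (by norm_num) hrpos.le] at h1
  have h5 : A α m - 2 ^ α ≤ 2 ^ α * (α * r) := by
    refine h3.trans ?_
    gcongr
  have h6 : (A α m - 2 ^ α) / r ≤ 2 ^ α * α := by
    rw [div_le_iff₀ hrpos]
    linarith
  have h7 : (2 : ℝ) ^ α * r ^ α ≤ 2 ^ α * (1 + α * (r - 1)) := by gcongr
  have h8 : (A α m - 2 ^ α) / r - (A α m - 2 ^ α) = (A α m - 2 ^ α) / r * (1 - r) := by
    field_simp
  have h9 : (A α m - 2 ^ α) / r * (1 - r) ≤ 2 ^ α * α * (1 - r) := by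
    apply mul_le_mul_of_nonneg_right h6 (by linarith)
  nlinarith

lemma norm_pow_sub_le {x : ℂ} (hx : ‖x‖ = 1) (k : ℕ) : ‖x ^ k - (-1) ^ k‖ ≤ k * ‖1 + x‖ := by
  induction k with
  | zero => simp
  | succ k ih =>
    have h1 : x ^ (k + 1) - (-1) ^ (k + 1) = x * (x ^ k - (-1) ^ k) + (1 + x) * (-1) ^ k := by ring
    rw [h1]
    refine (norm_add_le _ _).trans ?_
    rw [norm_mul, norm_mul, hx, norm_pow, norm_neg, norm_one, one_pow, mul_one, one_mul]
    push_cast
    linarith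

/-- near `-1` -/
lemma case_two {α : ℝ} (hα : 0 < α) (hα1 : α < 1) {m : ℕ} (hm : 2 ≤ m) (hc : bc (α - 1) m ≤ 0) {x : ℂ}
    (hx : ‖x‖ = 1) (hr : ‖1 + x‖ / 2 ≤ |bc (α - 1) m| / (m + 1)) :
    ‖P α m x‖ ≤ A α m := by
  obtain ⟨h2, _⟩ := A_bounds hα hc
  refine le_trans ?_ h2
  have e1 : P α m x = P α m (-1) + ∑ k ∈ Finset.range (m + 1), ((bc α k : ℝ) : ℂ) * (x ^ k - (-1) ^ k) := by
    unfold P
    rw [← Finset.sum_add_distrib]
    apply Finset.sum_congr rfl
    intro k _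
    ring
  have e2 : ‖∑ k ∈ Finset.range (m + 1), ((bc α k : ℝ) : ℂ) * (x ^ k - (-1) ^ k)‖
      ≤ m * (α * ‖1 + x‖) := by
    rw [Finset.sum_range_succ']
    simp only [pow_zero, sub_self, mul_zero, add_zero]
    refine (norm_sum_le _ _).trans ?_
    have : ∀ k ∈ Finset.range m, ‖((bc α (k + 1) : ℝ) : ℂ) * (x ^ (k + 1) - (-1) ^ (k + 1))‖
        ≤ α * ‖1 + x‖ := by
      intro k _
      rw [norm_mul, Complex.norm_real]
      have h1 := norm_pow_sub_le hx (k + 1)
      have h2 := bc_absorb α k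
      have h3 : ((k : ℝ) + 1) * |bc α (k + 1)| = α * |bc (α - 1) k| := by
        have := congrArg abs h2
        rwa [abs_mul, abs_mul, abs_of_pos (show (0 : ℝ) < (k : ℝ) + 1 by positivity),
          abs_of_pos hα] at this
      have h4 := abs_bc_le_one hα hα1 k
      calc ‖bc α (k + 1)‖ * ‖x ^ (k + 1) - (-1) ^ (k + 1)‖
          ≤ |bc α (k + 1)| * (((k + 1 : ℕ) : ℝ) * ‖1 + x‖) := by
            rw [Real.norm_eq_abs]
            gcongr
        _ = (((k : ℝ) + 1) * |bc α (k + 1)|) * ‖1 + x‖ := by push_cast; ring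
        _ = α * |bc (α - 1) k| * ‖1 + x‖ := by rw [h3]
        _ ≤ α * 1 * ‖1 + x‖ := by gcongr
        _ = _ := by ring
    refine (Finset.sum_le_sum this).trans ?_
    simp
  have e3 : ‖P α m (-1)‖ = |bc (α - 1) m| := by
    rw [P_neg_one]
    simp
  rw [e1]
  refine (norm_add_le _ _).trans ?_
  rw [e3]
  obtain ⟨j, rfl⟩ := Nat.exists_eq_add_of_le hm
  have h5 := abs_bc_le hα hα1 j
  rw [Nat.add_comm j 2] at h5
  set R := |bc (α - 1) (2 + j)| with hR
  have hR0 : 0 ≤ R := abs_nonneg _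
  have hmpos : (0 : ℝ) < ((2 + j : ℕ) : ℝ) + 1 := by positivity
  have h6 : ((2 + j : ℕ) : ℝ) * (α * ‖1 + x‖) ≤ 2 * α * R := by
    have h7 : ‖1 + x‖ * (((2 + j : ℕ) : ℝ) + 1) ≤ 2 * R := by
      rw [le_div_iff₀ hmpos] at hr
      linarith
    have h8 : ((2 + j : ℕ) : ℝ) * ‖1 + x‖ ≤ 2 * R := by
      nlinarith [norm_nonneg (1 + x)]
    nlinarith
  have h9 : R * (1 + 2 * α) ≤ 1 + α / 2 := by
    have h10 : R * (1 + 2 * α) ≤ (1 - α) * (1 - α / 2) * (1 + 2 * α) := by gcongr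
    have h11 : (1 - α) * (1 - α / 2) * (1 + 2 * α) ≤ 1 + α / 2 := by
      nlinarith [mul_pos hα hα, mul_pos (mul_pos hα hα) (sub_pos.mpr hα1)]
    linarith
  have h12 : 1 + α / 2 ≤ (2 : ℝ) ^ α := by
    rw [Real.rpow_def_of_pos (by norm_num)]
    have h13 := Real.add_one_le_exp (Real.log 2 * α)
    have h14 := Real.log_two_gt_d9
    nlinarith
  calc R + ‖∑ k ∈ range (2 + j + 1), ((bc α k : ℝ) : ℂ) * (x ^ k - (-1) ^ k)‖
      ≤ R + ((2 + j : ℕ) : ℝ) * (α * ‖1 + x‖) := by gcongr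
    _ ≤ R + 2 * α * R := by gcongr
    _ = R * (1 + 2 * α) := by ring
    _ ≤ 1 + α / 2 := h9
    _ ≤ _ := h12

lemma small_alpha {α : ℝ} (hα : 0 < α) (hα1 : α < 1) {m : ℕ} (hm : 2 ≤ m) (hodd : Odd m) {x : ℂ}
    (hx : ‖x‖ = 1) : ‖P α m x‖ ≤ A α m := by
  have hc : bc (α - 1) m ≤ 0 := by
    have := sign_bc hα hα1 m
    rw [hodd.neg_one_pow] at this
    linarith
  rcases le_total (|bc (α - 1) m| / (m + 1)) (‖1 + x‖ / 2) with h | h
  · by_cases hx1 : x = -1
    · apply case_two hα hα1 hm hc hx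
      rw [hx1]
      simp
      positivity
    · exact case_one hα hα1 hc hx h hx1
  · exact case_two hα hα1 hm hc hx h


/-! ### the case `α ≥ 1` -/

lemma abs_sin_mul_le (φ : ℝ) (n : ℕ) : |Real.sin (n * φ)| ≤ n * |Real.sin φ| := by
  induction n with
  | zero => simp
  | succ n ih =>
    push_cast
    rw [add_mul, one_mul, Real.sin_add]
    refine (abs_add_le _ _).trans ?_
    rw [abs_mul, abs_mul]
    have h1 := Real.abs_cos_le_one φ
    have h2 := Real.abs_cos_le_one (n * φ)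
    nlinarith [abs_nonneg (Real.sin φ), abs_nonneg (Real.sin (n * φ))]

/-- `Im (z^{2n+1} conj P(z²)) = Σ b_k sin((2(n-k)+1)φ)`, bounded. -/
lemma im_bound (α : ℝ) (n : ℕ) {φ : ℝ} (hφ : 0 ≤ Real.sin φ) :
    |((Complex.exp (φ * Complex.I)) ^ (2 * n + 1) *
      (starRingEnd ℂ) (P α n ((Complex.exp (φ * Complex.I)) ^ 2))).im| ≤
      Real.sin φ * ∑ k ∈ Finset.range (n + 1), |bc α k| * ((2 * (n - k) + 1 : ℕ) : ℝ) := by
  set z := Complex.exp (φ * Complex.I) with hz
  have hz1 : z * (starRingEnd ℂ) z = 1 := by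
    rw [Complex.mul_conj, hz]
    have : Complex.normSq (Complex.exp (φ * Complex.I)) = 1 := by
      rw [Complex.normSq_eq_norm_sq, Complex.norm_exp_ofReal_mul_I]; norm_num
    rw [this]; simp
  have e1 : z ^ (2 * n + 1) * (starRingEnd ℂ) (P α n (z ^ 2))
      = ∑ k ∈ Finset.range (n + 1), ((bc α k : ℝ) : ℂ) * z ^ (2 * (n - k) + 1) := by
    unfold P
    rw [map_sum, Finset.mul_sum]
    apply Finset.sum_congr rfl
    intro k hk
    have hk' : k ≤ n := Nat.lt_succ_iff.mp (Finset.mem_range.mp hk)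
    rw [map_mul, Complex.conj_ofReal, map_pow, map_pow, ← pow_mul]
    have h2 : 2 * n + 1 = (2 * (n - k) + 1) + 2 * k := by omega
    rw [h2, pow_add]
    have h3 : z ^ (2 * k) * (starRingEnd ℂ) z ^ (2 * k) = 1 := by
      rw [← mul_pow, hz1, one_pow]
    linear_combination (z ^ (2 * (n - k) + 1) * (bc α k : ℂ)) * h3
  rw [e1, Complex.im_sum, Finset.mul_sum]
  refine (Finset.abs_sum_le_sum_abs _ _).trans ?_
  apply Finset.sum_le_sum
  intro k _
  rw [Complex.im_ofReal_mul, abs_mul]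
  have h4 : (z ^ (2 * (n - k) + 1)).im = Real.sin (((2 * (n - k) + 1 : ℕ) : ℝ) * φ) := by
    rw [hz, ← Complex.exp_nat_mul]
    have : ((2 * (n - k) + 1 : ℕ) : ℂ) * (φ * Complex.I)
        = ((((2 * (n - k) + 1 : ℕ) : ℝ) * φ : ℝ) : ℂ) * Complex.I := by push_cast; ring
    rw [this, Complex.exp_ofReal_mul_I_im]
  rw [h4]
  have h5 := abs_sin_mul_le φ (2 * (n - k) + 1)
  rw [abs_of_nonneg hφ] at h5
  calc |bc α k| * |Real.sin (((2 * (n - k) + 1 : ℕ) : ℝ) * φ)|
      ≤ |bc α k| * (((2 * (n - k) + 1 : ℕ) : ℝ) * Real.sin φ) := by gcongr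
    _ = _ := by ring

/-- The differential inequality argument. -/
lemma ode_arg {α : ℝ} (hα : 0 ≤ α) {n : ℕ}
    (hB : |bc (α - 1) n| * ∑ k ∈ Finset.range (n + 1), |bc α k| * ((2 * (n - k) + 1 : ℕ) : ℝ)
      ≤ (A α n) ^ 2) {φ : ℝ} (h0 : 0 ≤ φ) (h1 : φ ≤ Real.pi / 2) :
    ‖P α n ((Complex.exp (φ * Complex.I)) ^ 2)‖ ^ 2 ≤ (A α n) ^ 2 := by
  set S := ∑ k ∈ Finset.range (n + 1), |bc α k| * ((2 * (n - k) + 1 : ℕ) : ℝ) with hS
  let a : ℝ → ℂ := fun s => P α n ((Complex.exp (s * Complex.I)) ^ 2)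
  let a' : ℝ → ℂ := fun s => (α : ℂ) * Q (α - 1) n ((Complex.exp (s * Complex.I)) ^ 2) *
    (2 * Complex.I * (Complex.exp (s * Complex.I)) ^ 2)
  have ha : ∀ s : ℝ, HasDerivAt a (a' s) s := by
    intro s
    have d1 : HasDerivAt (fun s : ℝ => (s : ℂ) * Complex.I) Complex.I s := by
      simpa using (Complex.ofRealCLM.hasDerivAt (x := s)).mul_const Complex.I
    have d2 : HasDerivAt (fun s : ℝ => (Complex.exp ((s : ℂ) * Complex.I)) ^ 2)
        (2 * Complex.I * (Complex.exp (s * Complex.I)) ^ 2) s := by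
      have := (d1.cexp).pow 2
      refine this.congr_deriv ?_
      push_cast
      ring
    exact (hasDerivAt_P α n ((Complex.exp (s * Complex.I)) ^ 2)).comp s d2
  have hh : ∀ s : ℝ, HasDerivAt (fun s => ‖a s‖ ^ 2) (2 * ((starRingEnd ℂ) (a s) * a' s).re) s := by
    intro s
    have := (ha s).norm_sq
    refine this.congr_deriv ?_
    rw [Complex.inner, mul_comm (a' s)]
  -- the main inequality
  have main : ∀ s ∈ Set.Ico (0 : ℝ) (Real.pi / 2),
      Real.cos s * (2 * ((starRingEnd ℂ) (a s) * a' s).re) ≤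
        - (2 * α * Real.sin s) * (‖a s‖ ^ 2 - |bc (α - 1) n| * S) := by
    intro s hs
    have hsin : 0 ≤ Real.sin s := Real.sin_nonneg_of_nonneg_of_le_pi hs.1 (by
      have := Real.pi_pos
      linarith [hs.2])
    have hb := im_bound α n hsin
    set z := Complex.exp (s * Complex.I) with hz
    have hza : a s = P α n (z ^ 2) := rfl
    have hza' : a' s = (α : ℂ) * Q (α - 1) n (z ^ 2) * (2 * Complex.I * z ^ 2) := rfl
    have hcos : (1 + z ^ 2) = z * (2 * (Real.cos s : ℂ)) := by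
      have h1 : z * Complex.exp (-(s * Complex.I)) = 1 := by
        rw [hz, ← Complex.exp_add]; simp
      rw [Complex.ofReal_cos, Complex.cos, ← hz, neg_mul]
      linear_combination -h1
    have hk := key_id α n (z ^ 2)
    have e1 : (Real.cos s : ℂ) * ((starRingEnd ℂ) (a s) * a' s)
        = (α : ℂ) * (Complex.I * z) * ((starRingEnd ℂ) (a s) * a s)
          - (α : ℂ) * (bc (α - 1) n : ℂ) * (Complex.I * (z ^ (2 * n + 1) * (starRingEnd ℂ) (a s))) := by
      rw [hza', hza]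
      rw [hcos] at hk
      rw [pow_succ z (2 * n), pow_mul z 2 n]
      linear_combination ((α : ℂ) * Complex.I * z * (starRingEnd ℂ) (P α n (z ^ 2))) * hk
    have e2 := congrArg Complex.re e1
    rw [Complex.re_ofReal_mul] at e2
    have e3 : (starRingEnd ℂ) (a s) * a s = ((‖a s‖ ^ 2 : ℝ) : ℂ) := by
      rw [mul_comm, Complex.mul_conj, Complex.normSq_eq_norm_sq]
    have hzim : z.im = Real.sin s := by rw [hz, Complex.exp_ofReal_mul_I_im]
    rw [e3] at e2
    have e4 : ((α : ℂ) * (Complex.I * z) * ((‖a s‖ ^ 2 : ℝ) : ℂ)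
          - (α : ℂ) * (bc (α - 1) n : ℂ) * (Complex.I * (z ^ (2 * n + 1) * (starRingEnd ℂ) (a s)))).re
        = - α * Real.sin s * ‖a s‖ ^ 2
          + α * bc (α - 1) n * (z ^ (2 * n + 1) * (starRingEnd ℂ) (a s)).im := by
      rw [Complex.sub_re]
      have f1 : ((α : ℂ) * (Complex.I * z) * ((‖a s‖ ^ 2 : ℝ) : ℂ)).re = - α * Real.sin s * ‖a s‖ ^ 2 := by
        rw [mul_assoc, Complex.re_ofReal_mul, Complex.re_mul_ofReal, Complex.I_mul_re, hzim]
        ring
      have f2 : ((α : ℂ) * (bc (α - 1) n : ℂ) * (Complex.I * (z ^ (2 * n + 1) * (starRingEnd ℂ) (a s)))).re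
          = - (α * bc (α - 1) n * (z ^ (2 * n + 1) * (starRingEnd ℂ) (a s)).im) := by
        rw [← Complex.ofReal_mul, Complex.re_ofReal_mul, Complex.I_mul_re]
        ring
      rw [f1, f2]
      ring
    rw [e4] at e2
    have e5 : α * bc (α - 1) n * (z ^ (2 * n + 1) * (starRingEnd ℂ) (a s)).im
        ≤ α * |bc (α - 1) n| * (Real.sin s * S) := by
      have g1 : bc (α - 1) n * (z ^ (2 * n + 1) * (starRingEnd ℂ) (a s)).im
          ≤ |bc (α - 1) n| * (Real.sin s * S) := by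
        refine (le_abs_self _).trans ?_
        rw [abs_mul]
        exact mul_le_mul_of_nonneg_left hb (abs_nonneg _)
      rw [mul_assoc, mul_assoc]
      exact mul_le_mul_of_nonneg_left g1 hα
    nlinarith
  have hh0 : ‖a 0‖ ^ 2 = (A α n) ^ 2 := by
    simp only [a]
    simp [P_one]
  -- fencing with slope ε
  have fence : ∀ ε : ℝ, 0 < ε → ‖a φ‖ ^ 2 ≤ (A α n) ^ 2 + ε * φ := by
    intro ε hε
    have key := image_le_of_deriv_right_lt_deriv_boundary (f := fun s => ‖a s‖ ^ 2)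
      (f' := fun s => 2 * ((starRingEnd ℂ) (a s) * a' s).re) (a := 0) (b := Real.pi / 2)
      (fun t _ => (hh t).continuousAt.continuousWithinAt)
      (fun t _ => (hh t).hasDerivWithinAt)
      (B := fun s => (A α n) ^ 2 + ε * s) (B' := fun _ => ε)
      (by simp only [hh0]; simp)
      (fun t => by simpa using ((hasDerivAt_id t).const_mul ε).const_add ((A α n) ^ 2))
      (by
        intro t ht he
        have hm := main t ht
        have hcos : 0 < Real.cos t := Real.cos_pos_of_mem_Ioo ⟨by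
          have := Real.pi_pos
          linarith [ht.1], ht.2⟩
        have hsin : 0 ≤ Real.sin t := Real.sin_nonneg_of_nonneg_of_le_pi ht.1 (by
          have := Real.pi_pos
          linarith [ht.2])
        have ht0 : 0 ≤ t := ht.1
        have h3 : 0 ≤ ‖a t‖ ^ 2 - |bc (α - 1) n| * S := by
          have h4 : 0 ≤ ε * t := by positivity
          linarith
        have h5 : 0 ≤ (2 * α * Real.sin t) * (‖a t‖ ^ 2 - |bc (α - 1) n| * S) := by positivity
        have h6 : Real.cos t * (2 * ((starRingEnd ℂ) (a t) * a' t).re) ≤ 0 := by linarith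
        have h7 : 2 * ((starRingEnd ℂ) (a t) * a' t).re ≤ 0 := by
          by_contra hcon
          push Not at hcon
          have := mul_pos hcos hcon
          linarith
        linarith)
    exact key ⟨h0, h1⟩
  by_contra hcon
  push Not at hcon
  have hd : 0 < ‖a φ‖ ^ 2 - (A α n) ^ 2 := by
    simp only [a]; linarith
  have := fence ((‖a φ‖ ^ 2 - (A α n) ^ 2) / (2 * (φ + 1))) (by positivity)
  have h8 : (‖a φ‖ ^ 2 - (A α n) ^ 2) / (2 * (φ + 1)) * φ ≤ (‖a φ‖ ^ 2 - (A α n) ^ 2) / 2 := by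
    rw [div_mul_eq_mul_div, div_le_div_iff₀ (by positivity) (by norm_num)]
    nlinarith
  linarith


lemma P_conj (α : ℝ) (n : ℕ) (x : ℂ) :
    P α n ((starRingEnd ℂ) x) = (starRingEnd ℂ) (P α n x) := by
  unfold P
  rw [map_sum]
  apply Finset.sum_congr rfl
  intro k _
  rw [map_mul, map_pow, Complex.conj_ofReal]

lemma ode_full {α : ℝ} (hα : 0 ≤ α) {n : ℕ} (hA : 0 ≤ A α n)
    (hB : |bc (α - 1) n| * ∑ k ∈ Finset.range (n + 1), |bc α k| * ((2 * (n - k) + 1 : ℕ) : ℝ)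
      ≤ (A α n) ^ 2) {x : ℂ} (hx : ‖x‖ = 1) : ‖P α n x‖ ≤ A α n := by
  have upper : ∀ y : ℂ, ‖y‖ = 1 → 0 ≤ y.arg → ‖P α n y‖ ≤ A α n := by
    intro y hy harg
    have h1 := ode_arg hα hB (φ := y.arg / 2) (by positivity) (by
      have := Complex.arg_le_pi y
      linarith)
    have h2 : Complex.exp (((y.arg / 2 : ℝ) : ℂ) * Complex.I) ^ 2 = y := by
      rw [← Complex.exp_nat_mul]
      have : ((2 : ℕ) : ℂ) * (((y.arg / 2 : ℝ) : ℂ) * Complex.I) = (y.arg : ℂ) * Complex.I := by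
        push_cast; ring
      rw [this]
      have h3 := Complex.norm_mul_exp_arg_mul_I y
      rw [hy] at h3
      simpa using h3
    rw [h2] at h1
    exact le_of_sq_le_sq h1 hA
  rcases le_total 0 x.arg with h | h
  · exact upper x hx h
  · by_cases hpi : x.arg = Real.pi
    · exact upper x hx (by rw [hpi]; exact Real.pi_pos.le)
    · have h4 := upper ((starRingEnd ℂ) x) (by rwa [Complex.norm_conj]) (by
        rw [Complex.arg_conj, if_neg hpi]; linarith)
      rwa [P_conj, Complex.norm_conj] at h4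

/-- `0 ≤ g < 1`: `n |bc g n| ≤ g (1-g)` for `n ≥ 2` -/
lemma abs_bc_g {g : ℝ} (hg : 0 ≤ g) (hg1 : g < 1) (j : ℕ) :
    ((j + 2 : ℕ) : ℝ) * |bc g (j + 2)| ≤ g * (1 - g) := by
  induction j with
  | zero =>
    have h1 := bc_succ_mul g 1
    have h2 := bc_succ_mul g 0
    rw [bc_zero] at h2
    norm_num at h1 h2
    have h3 : |2 * bc g 2| = |g * (g - 1)| := by
      rw [h1, h2]
    rw [abs_mul, abs_mul, abs_of_nonneg hg, abs_of_neg (show g - 1 < 0 by linarith), abs_two] at h3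
    norm_num
    linarith
  | succ j ih =>
    have h1 := bc_succ_mul g (j + 2)
    have h2 := congrArg abs h1
    have hpos : (0 : ℝ) < ((j + 2 : ℕ) : ℝ) + 1 := by positivity
    have hneg : g - ((j + 2 : ℕ) : ℝ) < 0 := by
      have : (2 : ℝ) ≤ ((j + 2 : ℕ) : ℝ) := by
        push_cast
        have : (0 : ℝ) ≤ j := by positivity
        linarith
      linarith
    rw [abs_mul, abs_mul, abs_of_pos hpos, abs_of_neg hneg] at h2
    have h3 : ((j + 1 + 2 : ℕ) : ℝ) = ((j + 2 : ℕ) : ℝ) + 1 := by push_cast; ring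
    rw [h3, show j + 1 + 2 = j + 2 + 1 by ring, h2]
    have h4 : 0 ≤ |bc g (j + 2)| := abs_nonneg _
    nlinarith

/-- telescoping for `α = 1 + g`, `n ≥ 1`. -/
lemma abs_bc_one_add {g : ℝ} (hg : 0 ≤ g) (hg1 : g < 1) (n : ℕ) (hn : 1 ≤ n) :
    |bc (1 + g) (n + 1)| = |bc g n| - |bc g (n + 1)| := by
  have h1 : bc (1 + g) (n + 1) = bc g (n + 1) + bc g n := by
    have := bc_pascal (1 + g) n
    rwa [show 1 + g - 1 = g by ring] at this
  have hpos : (0 : ℝ) < (n : ℝ) + 1 := by positivity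
  have hn1 : (1 : ℝ) ≤ n := by exact_mod_cast hn
  have h2 : bc g (n + 1) = bc g n * (g - n) / (n + 1) := bc_succ g n
  have h3 : bc (1 + g) (n + 1) = bc g n * ((1 + g) / (n + 1)) := by
    rw [h1, h2]; field_simp; ring
  have h4 : |bc g (n + 1)| = |bc g n| * ((n - g) / (n + 1)) := by
    rw [h2, abs_div, abs_mul, abs_of_pos hpos, abs_of_neg (show g - n < 0 by linarith)]
    ring
  rw [h3, h4, abs_mul, abs_of_nonneg (show 0 ≤ (1 + g) / (n + 1) by positivity)]
  field_simp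
  ring

lemma bc_one_add_0 (g : ℝ) : bc (1 + g) 0 = 1 := bc_zero _
lemma bc_one_add_1 (g : ℝ) : bc (1 + g) 1 = 1 + g := by
  have := bc_succ_mul (1 + g) 0
  rw [bc_zero] at this
  norm_num at this
  linarith
lemma bc_one_add_2 (g : ℝ) : bc (1 + g) 2 = (1 + g) * g / 2 := by
  have := bc_succ_mul (1 + g) 1
  rw [bc_one_add_1] at this
  norm_num at this
  linarith
lemma bc_g_2 (g : ℝ) : bc g 2 = g * (g - 1) / 2 := by
  have h1 := bc_succ_mul g 1
  have h2 := bc_succ_mul g 0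
  rw [bc_zero] at h2
  norm_num at h1 h2
  rw [h2] at h1
  linarith

lemma sum_abs_bound {g : ℝ} (hg : 0 ≤ g) (hg1 : g < 1) (j : ℕ) :
    ∑ k ∈ Finset.range (j + 3), |bc (1 + g) k| ≤ 2 + 2 * g - |bc g (j + 2)| := by
  induction j with
  | zero =>
    rw [Finset.sum_range_succ, Finset.sum_range_succ, Finset.sum_range_one, bc_one_add_0, bc_one_add_1,
      bc_one_add_2, bc_g_2, abs_one, abs_of_nonneg (show 0 ≤ 1 + g by linarith),
      abs_of_nonneg (show 0 ≤ (1 + g) * g / 2 by positivity),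
      abs_of_nonpos (show g * (g - 1) / 2 ≤ 0 by nlinarith)]
    linarith
  | succ j ih =>
    rw [show j + 1 + 3 = (j + 3) + 1 by ring, Finset.sum_range_succ,
      show j + 3 = (j + 2) + 1 by ring, abs_bc_one_add hg hg1 (j + 2) (by omega),
      show j + 1 + 2 = j + 2 + 1 by ring]
    linarith

lemma A_lower {g : ℝ} (hg : 0 ≤ g) (hg1 : g < 1) (j : ℕ) :
    2 + g + |bc g (j + 2)| ≤ A (1 + g) (j + 2) := by
  induction j with
  | zero =>
    rw [zero_add, A_succ, A_succ, A_zero, zero_add, bc_one_add_1, show 1 + 1 = 2 by norm_num,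
      bc_one_add_2, bc_g_2,
      abs_of_nonpos (show g * (g - 1) / 2 ≤ 0 by nlinarith)]
    nlinarith
  | succ j ih =>
    rw [show j + 1 + 2 = j + 2 + 1 by ring, A_succ]
    have h1 := abs_bc_one_add hg hg1 (j + 2) (by omega)
    have h2 := neg_abs_le (bc (1 + g) (j + 2 + 1))
    linarith

/-- trivial bound when all coefficients are nonnegative -/
lemma trivial_bound {α : ℝ} {n : ℕ} (h : ∀ k ≤ n, 0 ≤ bc α k) {x : ℂ} (hx : ‖x‖ = 1) :
    ‖P α n x‖ ≤ A α n := by
  unfold P A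
  refine (norm_sum_le _ _).trans ?_
  apply Finset.sum_le_sum
  intro k hk
  have hk' : k ≤ n := Nat.lt_succ_iff.mp (Finset.mem_range.mp hk)
  rw [norm_mul, norm_pow, hx, one_pow, mul_one, Complex.norm_real, Real.norm_of_nonneg (h k hk')]

lemma base_case {g : ℝ} (hg : 0 ≤ g) (hg1 : g < 1) (n : ℕ) {x : ℂ} (hx : ‖x‖ = 1) :
    ‖P (1 + g) n x‖ ≤ A (1 + g) n := by
  by_cases hn : n ≤ 2
  · apply trivial_bound _ hx
    intro k hk
    have : k = 0 ∨ k = 1 ∨ k = 2 := by omega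
    rcases this with rfl | rfl | rfl
    · rw [bc_one_add_0]; norm_num
    · rw [bc_one_add_1]; linarith
    · rw [bc_one_add_2]; positivity
  · push Not at hn
    obtain ⟨j, rfl⟩ : ∃ j, n = j + 2 := ⟨n - 2, by omega⟩
    have hj : 1 ≤ j := by omega
    have hlow := A_lower hg hg1 j
    have habs : 0 ≤ |bc g (j + 2)| := abs_nonneg _
    apply ode_full (by linarith) (by linarith) _ hx
    rw [show 1 + g - 1 = g by ring]
    have h1 : ∑ k ∈ Finset.range (j + 2 + 1), |bc (1 + g) k| * ((2 * (j + 2 - k) + 1 : ℕ) : ℝ)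
        ≤ (2 + 2 * g) * ((2 * (j + 2) + 1 : ℕ) : ℝ) := by
      have h2 : ∑ k ∈ Finset.range (j + 2 + 1), |bc (1 + g) k| * ((2 * (j + 2 - k) + 1 : ℕ) : ℝ)
          ≤ ∑ k ∈ Finset.range (j + 2 + 1), |bc (1 + g) k| * ((2 * (j + 2) + 1 : ℕ) : ℝ) := by
        apply Finset.sum_le_sum
        intro k _
        apply mul_le_mul_of_nonneg_left _ (abs_nonneg _)
        exact_mod_cast (by omega : 2 * (j + 2 - k) + 1 ≤ 2 * (j + 2) + 1)
      refine h2.trans ?_
      rw [← Finset.sum_mul]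
      apply mul_le_mul_of_nonneg_right _ (by positivity)
      have := sum_abs_bound hg hg1 j
      rw [show j + 2 + 1 = j + 3 by ring]
      linarith
    have h3 := abs_bc_g hg hg1 j
    have h4 : (3 : ℝ) ≤ ((j + 2 : ℕ) : ℝ) := by exact_mod_cast (by omega : 3 ≤ j + 2)
    set N : ℝ := ((j + 2 : ℕ) : ℝ) with hN
    have h5 : ((2 * (j + 2) + 1 : ℕ) : ℝ) = 2 * N + 1 := by rw [hN]; push_cast; ring
    rw [h5] at h1
    have h6 : |bc g (j + 2)| * (2 * N + 1) ≤ 7 / 12 := by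
      have h7 : g * (1 - g) ≤ 1 / 4 := by nlinarith [sq_nonneg (g - 1 / 2)]
      have h8 : |bc g (j + 2)| * 3 ≤ 1 / 4 := by nlinarith
      nlinarith
    calc |bc g (j + 2)| * ∑ k ∈ Finset.range (j + 2 + 1), |bc (1 + g) k| * ((2 * (j + 2 - k) + 1 : ℕ) : ℝ)
        ≤ |bc g (j + 2)| * ((2 + 2 * g) * (2 * N + 1)) := by gcongr
      _ = (|bc g (j + 2)| * (2 * N + 1)) * (2 + 2 * g) := by ring
      _ ≤ 7 / 12 * (2 + 2 * g) := by gcongr
      _ ≤ (2 + g) ^ 2 := by nlinarith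
      _ ≤ (A (1 + g) (j + 2)) ^ 2 := by
        apply pow_le_pow_left₀ (by linarith)
        linarith

/-- the identity `n A_n^α = α x A_{n-1}^{α-1} + Σ_{j<n} A_j^α`. -/
lemma step_id (α : ℝ) (n : ℕ) (x : ℂ) :
    ((n : ℂ) + 1) * P α (n + 1) x = (α : ℂ) * x * P (α - 1) n x
      + ∑ j ∈ Finset.range (n + 1), P α j x := by
  induction n with
  | zero =>
    have h := bc_absorb α 0
    rw [bc_zero] at h
    have h' : (bc α 1 : ℂ) = (α : ℂ) := by
      have : bc α 1 = α := by simpa using h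
      rw [this]
    rw [P_succ, P_zero, P_zero, Finset.sum_range_one, P_zero, zero_add, h']
    push_cast
    ring
  | succ n ih =>
    rw [P_succ α (n + 1), P_succ (α - 1) n, Finset.sum_range_succ]
    have h := bc_absorb α (n + 1)
    have h' : (((n + 1 : ℕ) : ℂ) + 1) * (bc α (n + 1 + 1) : ℂ) = (α : ℂ) * (bc (α - 1) (n + 1) : ℂ) := by
      exact_mod_cast h
    push_cast at h' ⊢
    linear_combination ih + (x ^ (n + 1 + 1)) * h'

lemma step_id_A (α : ℝ) (n : ℕ) :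
    ((n : ℝ) + 1) * A α (n + 1) = α * A (α - 1) n + ∑ j ∈ Finset.range (n + 1), A α j := by
  have h := step_id α n 1
  simp only [P_one, mul_one] at h
  exact_mod_cast h

lemma large_alpha (p : ℕ) : ∀ α : ℝ, 1 ≤ α → α < p + 2 → ∀ n : ℕ, ∀ x : ℂ, ‖x‖ = 1 →
    ‖P α n x‖ ≤ A α n := by
  induction p with
  | zero =>
    intro α h1 h2 n x hx
    have := base_case (g := α - 1) (by linarith) (by
      simp at h2
      linarith) n hx
    rwa [show 1 + (α - 1) = α by ring] at this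
  | succ p ih =>
    intro α h1 h2 n x hx
    by_cases hlt : α < 2
    · have := base_case (g := α - 1) (by linarith) (by linarith) n hx
      rwa [show 1 + (α - 1) = α by ring] at this
    · push Not at hlt
      induction n using Nat.strong_induction_on with
      | _ n ihn =>
        rcases n with _ | n
        · simp [P_zero, A_zero]
        · have e1 := step_id α n x
          have e2 := step_id_A α n
          have hpos : (0 : ℝ) < (n : ℝ) + 1 := by positivity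
          have e3 : ((n : ℝ) + 1) * ‖P α (n + 1) x‖ ≤ ((n : ℝ) + 1) * A α (n + 1) := by
            have e4 : ((n : ℝ) + 1) * ‖P α (n + 1) x‖ = ‖((n : ℂ) + 1) * P α (n + 1) x‖ := by
              rw [norm_mul]
              congr 1
              have : ((n : ℂ) + 1) = (((n : ℝ) + 1 : ℝ) : ℂ) := by push_cast; ring
              rw [this, Complex.norm_real, Real.norm_of_nonneg hpos.le]
            rw [e4, e1, e2]
            refine (norm_add_le _ _).trans ?_
            apply add_le_add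
            · rw [norm_mul, norm_mul, hx, mul_one, Complex.norm_real, Real.norm_of_nonneg (by linarith)]
              apply mul_le_mul_of_nonneg_left _ (by linarith)
              apply ih (α - 1) (by linarith) _ n x hx
              push_cast at h2
              linarith
            · refine (norm_sum_le _ _).trans ?_
              apply Finset.sum_le_sum
              intro j hj
              exact ihn j (Finset.mem_range.mp hj)
          exact le_of_mul_le_mul_left e3 hpos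

theorem brannan {α : ℝ} (hα : 0 < α) {m : ℕ} (hodd : Odd m) (hm : 3 ≤ m) {x : ℂ} (hx : ‖x‖ = 1) :
    ‖P α m x‖ ≤ A α m := by
  rcases lt_or_ge α 1 with h | h
  · exact small_alpha hα h (by omega) hodd hx
  · obtain ⟨p, hp⟩ := exists_nat_gt α
    exact large_alpha p α h (by linarith) m x hx

end Pool.Agent.V11283.Brannan
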